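import Pool.Agent.Helper31.FX.Defs

/-! Project FX: lifting labels along a covering of posets. -/

set_option autoImplicit false
set_option linter.unusedSectionVars false

namespace Pool.Agent.Helper31.FX

/-- `q : X → P` is a covering of the set `E`: `q` is monotone with image `E`, and comparabilities
lift uniquely. -/
structure IsCover {X P : Type*} [PartialOrder X] [PartialOrder P] (q : X → P) (E : Set P) :
    Prop where
  mem : ∀ x, q x ∈ E
  onto : ∀ e ∈ E, ∃ x, q x = e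
  mono : ∀ x y, x ≤ y → q x ≤ q y
  up : ∀ x, ∀ e ∈ E, q x ≤ e → ∃! y, x ≤ y ∧ q y = e
  down : ∀ x, ∀ e ∈ E, e ≤ q x → ∃! y, y ≤ x ∧ q y = e

namespace IsCover

variable {X P : Type*} [PartialOrder X] [PartialOrder P] {q : X → P} {E : Set P}

/-- comparable elements with the same image as each other over a common element are equal -/
lemma uniq (hq : IsCover q E) {x y y' : X} (h : x ≤ y ∨ y ≤ x) (h' : x ≤ y' ∨ y' ≤ x)
    (e : q y = q y') : y = y' := by
  have self_up : ∀ z, x ≤ z → q z = q x → z = x := fun z hz hqz =>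
    (hq.up x (q x) (hq.mem x) le_rfl).unique ⟨hz, hqz⟩ ⟨le_rfl, rfl⟩
  have self_dn : ∀ z, z ≤ x → q z = q x → z = x := fun z hz hqz =>
    (hq.down x (q x) (hq.mem x) le_rfl).unique ⟨hz, hqz⟩ ⟨le_rfl, rfl⟩
  rcases h with h | h <;> rcases h' with h' | h'
  · exact (hq.up x (q y) (hq.mem y) (hq.mono _ _ h)).unique ⟨h, rfl⟩ ⟨h', e.symm⟩
  · have h1 : q y = q x :=
      le_antisymm (by rw [e]; exact hq.mono _ _ h') (hq.mono _ _ h)
    rw [self_up y h h1, self_dn y' h' (by rw [← e, h1])]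
  · have h1 : q y = q x :=
      le_antisymm (hq.mono _ _ h) (by rw [e]; exact hq.mono _ _ h')
    rw [self_dn y h h1, self_up y' h' (by rw [← e, h1])]
  · exact (hq.down x (q y) (hq.mem y) (hq.mono _ _ h)).unique ⟨h, rfl⟩ ⟨h', e.symm⟩

/-- triangles lift -/
lemma triangle (hq : IsCover q E) {x y z : X} (hxy : x ≤ y ∨ y ≤ x) (hyz : y ≤ z ∨ z ≤ y)
    (hxz : q x ≤ q z ∨ q z ≤ q x) : x ≤ z ∨ z ≤ x := by
  rcases hxy with h | h <;> rcases hyz with h' | h'
  · exact Or.inl (h.trans h')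
  · -- `x ≤ y`, `z ≤ y`
    rcases hxz with h1 | h1
    · obtain ⟨z', ⟨hz1, hz2⟩, -⟩ := hq.up x (q z) (hq.mem z) h1
      obtain ⟨y', ⟨hy1, hy2⟩, -⟩ := hq.up z' (q y) (hq.mem y) (hz2 ▸ hq.mono _ _ h')
      have e : y' = y := hq.uniq (Or.inl (hz1.trans hy1)) (Or.inl h) hy2
      rw [e] at hy1
      have e' : z' = z := hq.uniq (Or.inr hy1) (Or.inr h') hz2
      exact Or.inl (e' ▸ hz1)
    · obtain ⟨x', ⟨hx1, hx2⟩, -⟩ := hq.up z (q x) (hq.mem x) h1
      obtain ⟨y', ⟨hy1, hy2⟩, -⟩ := hq.up x' (q y) (hq.mem y) (hx2 ▸ hq.mono _ _ h)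
      have e : y' = y := hq.uniq (Or.inl (hx1.trans hy1)) (Or.inl h') hy2
      rw [e] at hy1
      have e' : x' = x := hq.uniq (Or.inr hy1) (Or.inr h) hx2
      exact Or.inr (e' ▸ hx1)
  · -- `y ≤ x`, `y ≤ z`
    rcases hxz with h1 | h1
    · obtain ⟨x', ⟨hx1, hx2⟩, -⟩ := hq.down z (q x) (hq.mem x) h1
      obtain ⟨y', ⟨hy1, hy2⟩, -⟩ := hq.down x' (q y) (hq.mem y) (hx2 ▸ hq.mono _ _ h)
      have e : y' = y := hq.uniq (Or.inr (hy1.trans hx1)) (Or.inr h') hy2
      rw [e] at hy1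
      have e' : x' = x := hq.uniq (Or.inl hy1) (Or.inl h) hx2
      exact Or.inl (e' ▸ hx1)
    · obtain ⟨z', ⟨hz1, hz2⟩, -⟩ := hq.down x (q z) (hq.mem z) h1
      obtain ⟨y', ⟨hy1, hy2⟩, -⟩ := hq.down z' (q y) (hq.mem y) (hz2 ▸ hq.mono _ _ h')
      have e : y' = y := hq.uniq (Or.inr (hy1.trans hz1)) (Or.inr h) hy2
      rw [e] at hy1
      have e' : z' = z := hq.uniq (Or.inl hy1) (Or.inl h') hz2
      exact Or.inr (e' ▸ hz1)
  · exact Or.inr (h'.trans h)

/-- comparabilities lift -/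
lemma exists_lift (hq : IsCover q E) (x : X) {e : P} (he : e ∈ E) (h : q x ≤ e ∨ e ≤ q x) :
    ∃ y, (x ≤ y ∨ y ≤ x) ∧ q y = e := by
  rcases h with h | h
  · obtain ⟨y, ⟨h1, h2⟩, -⟩ := hq.up x e he h
    exact ⟨y, Or.inl h1, h2⟩
  · obtain ⟨y, ⟨h1, h2⟩, -⟩ := hq.down x e he h
    exact ⟨y, Or.inr h1, h2⟩

end IsCover

namespace Lft

/-- The shift of a tuple: the first entry is removed and `t` is added at the end. -/
def shift {V : Type*} {r : ℕ} (t : V) (δ : Fin r → V) : Fin r → V :=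
  fun j => if h : (j : ℕ) + 1 < r then δ ⟨j + 1, h⟩ else t

section

variable {V : Type*} {r : ℕ} {t : V} {Ad : Set V}

lemma shift_mem (ht : t ∈ Ad) {δ : Fin r → V} (hδ : ∀ j, δ j ∈ Ad) (j : Fin r) :
    shift t δ j ∈ Ad := by
  unfold shift
  split_ifs with h
  · exact hδ _
  · exact ht

variable [PartialOrder V]

lemma le_of_le {δ : Fin r → V} (hr : Rel δ δ) {j k : Fin r} (h : j ≤ k) : δ j ≤ δ k := by
  rcases h.eq_or_lt with rfl | h
  · exact le_rfl
  · exact hr.2 j k h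

lemma shift_mono (htop : ∀ v ∈ Ad, v ≤ t) {δ δ' : Fin r → V} (hδ' : ∀ j, δ' j ∈ Ad)
    (h : Rel δ δ') : Rel (shift t δ) (shift t δ') := by
  refine ⟨fun j => ?_, fun j k hjk => ?_⟩
  · unfold shift
    split_ifs with h1
    · exact h.1 _
    · exact le_rfl
  · have hjk' : (j : ℕ) < k := hjk
    have hk := k.2
    unfold shift
    rw [dif_pos (show (j : ℕ) + 1 < r by omega)]
    split_ifs with h2
    · exact h.2 _ _ (by
        show (j : ℕ) + 1 < k + 1
        omega)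
    · exact htop _ (hδ' _)

lemma rel_shift (htop : ∀ v ∈ Ad, v ≤ t) {δ δ' : Fin r → V} (hδ' : ∀ j, δ' j ∈ Ad)
    (hr : Rel δ δ) (h : Rel δ δ') : Rel δ' (shift t δ) := by
  refine ⟨fun j => ?_, fun j k hjk => ?_⟩
  · unfold shift
    split_ifs with h1
    · exact h.2 _ _ (by
        show (j : ℕ) < j + 1
        omega)
    · exact htop _ (hδ' _)
  · have hjk' : (j : ℕ) < k := hjk
    have hk := k.2
    unfold shift
    rw [dif_pos (show (j : ℕ) + 1 < r by omega)]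
    exact (le_of_le hr (by
      show (j : ℕ) + 1 ≤ k
      omega)).trans (h.1 k)

/-- All entries from `k` on are equal to `t`. -/
def Short (t : V) (k : ℕ) (δ : Fin r → V) : Prop := ∀ j : Fin r, k ≤ (j : ℕ) → δ j = t

lemma short_all (δ : Fin r → V) : Short t r δ := fun j hj => absurd j.2 (by omega)

lemma short_shift {k : ℕ} {δ : Fin r → V} (h : Short t (k + 1) δ) : Short t k (shift t δ) := by
  intro j hj
  unfold shift
  split_ifs with h1
  · exact h _ (by
      show k + 1 ≤ (j : ℕ) + 1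
      omega)
  · rfl

end

/-- **Lifting labels along a covering.** -/
theorem exists_lift {V X P : Type*} [PartialOrder V] [PartialOrder X] [PartialOrder P]
    {q : X → P} {E : Set P} (hq : IsCover q E) (r : ℕ) (t : V) (Ad : Set V) (ht : t ∈ Ad)
    (htop : ∀ v ∈ Ad, v ≤ t) (lam : (Fin r → V) → P)
    (h1 : ∀ δ, Rel δ δ → (∀ j, δ j ∈ Ad) → lam δ ∈ E)
    (h2 : ∀ δ δ', Rel δ δ' → Rel δ δ → Rel δ' δ' → (∀ j, δ j ∈ Ad) → (∀ j, δ' j ∈ Ad) →
      lam δ ≤ lam δ' ∨ lam δ' ≤ lam δ) :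
    ∃ lamX : (Fin r → V) → X,
      (∀ δ, Rel δ δ → (∀ j, δ j ∈ Ad) → q (lamX δ) = lam δ) ∧
      ∀ δ δ', Rel δ δ' → Rel δ δ → Rel δ' δ' → (∀ j, δ j ∈ Ad) → (∀ j, δ' j ∈ Ad) →
        lamX δ ≤ lamX δ' ∨ lamX δ' ≤ lamX δ := by
  classical
  have hc0 : Rel (fun _ : Fin r => t) (fun _ => t) := ⟨fun _ => le_rfl, fun _ _ _ => le_rfl⟩
  obtain ⟨x0, hx0⟩ := hq.onto _ (h1 _ hc0 (fun _ => ht))
  -- transport
  let tr : X → P → X := fun x e =>
    if h : ∃ y, (x ≤ y ∨ y ≤ x) ∧ q y = e then h.choose else x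
  have htr : ∀ x e, e ∈ E → (q x ≤ e ∨ e ≤ q x) → (x ≤ tr x e ∨ tr x e ≤ x) ∧ q (tr x e) = e := by
    intro x e he h
    have h' := hq.exists_lift x he h
    simp only [tr, dif_pos h']
    exact h'.choose_spec
  -- the lift
  let LX : ℕ → (Fin r → V) → X := fun k =>
    Nat.rec (fun _ => x0) (fun _ F δ => tr (F (shift t δ)) (lam δ)) k
  have hLX : ∀ k δ, LX (k + 1) δ = tr (LX k (shift t δ)) (lam δ) := fun _ _ => rfl
  have key : ∀ k, (∀ δ, Rel δ δ → (∀ j, δ j ∈ Ad) → Short t k δ → q (LX k δ) = lam δ) ∧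
      ∀ δ δ', Rel δ δ' → Rel δ δ → Rel δ' δ' → (∀ j, δ j ∈ Ad) → (∀ j, δ' j ∈ Ad) →
        Short t k δ → Short t k δ' → (LX k δ ≤ LX k δ' ∨ LX k δ' ≤ LX k δ) := by
    intro k
    induction k with
    | zero =>
      refine ⟨fun δ _ _ hs => ?_, fun δ δ' _ _ _ _ _ _ _ => Or.inl le_rfl⟩
      have e : δ = fun _ => t := by
        funext j
        exact hs j (Nat.zero_le _)
      rw [e]
      exact hx0
    | succ k ih =>
      have step : ∀ δ, Rel δ δ → (∀ j, δ j ∈ Ad) → Short t (k + 1) δ →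
          (LX k (shift t δ) ≤ LX (k + 1) δ ∨ LX (k + 1) δ ≤ LX k (shift t δ)) ∧
            q (LX (k + 1) δ) = lam δ := by
        intro δ hr hδ hs
        have hs' := short_shift hs
        have hm := fun j => shift_mem ht hδ j
        have hsr := shift_mono htop hδ hr
        have hqs := ih.1 (shift t δ) hsr hm hs'
        have := htr (LX k (shift t δ)) (lam δ) (h1 δ hr hδ) (by
          rw [hqs]
          exact (h2 _ _ (rel_shift htop hδ hr hr) hr hsr hδ hm).symm)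
        rw [hLX]
        exact this
      refine ⟨fun δ hr hδ hs => (step δ hr hδ hs).2, ?_⟩
      intro δ δ' h hr hr' hδ hδ' hs hs'
      obtain ⟨a1, a2⟩ := step δ hr hδ hs
      obtain ⟨b1, b2⟩ := step δ' hr' hδ' hs'
      have hm := fun j => shift_mem ht hδ j
      have hm' := fun j => shift_mem ht hδ' j
      have hsr := shift_mono htop hδ hr
      have hsr' := shift_mono htop hδ' hr'
      have hq1 := ih.1 (shift t δ) hsr hm (short_shift hs)
      have hb := ih.2 (shift t δ) (shift t δ') (shift_mono htop hδ' h) hsr hsr' hm hm'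
        (short_shift hs) (short_shift hs')
      -- triangle `δ'`, `shift δ'`, `shift δ`
      have t1 : LX (k + 1) δ' ≤ LX k (shift t δ) ∨ LX k (shift t δ) ≤ LX (k + 1) δ' := by
        refine hq.triangle b1.symm hb.symm ?_
        rw [b2, hq1]
        exact h2 _ _ (rel_shift htop hδ' hr h) hr' hsr hδ' hm
      -- triangle `δ`, `shift δ`, `δ'`
      refine hq.triangle a1.symm t1.symm ?_
      rw [a2, b2]
      exact h2 _ _ h hr hr' hδ hδ'
  refine ⟨LX r, fun δ hr hδ => (key r).1 δ hr hδ (short_all δ), ?_⟩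
  intro δ δ' h hr hr' hδ hδ'
  exact (key r).2 δ δ' h hr hr' hδ hδ' (short_all δ) (short_all δ')

end Lft

end Pool.Agent.Helper31.FX
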