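import Pool.Agent.Helper31.FX.Bounded
import Pool.Agent.Helper9.FX.Lift

/-! Project FX: no label function if some covering of `E` has no ray of bounded diameter. -/

set_option autoImplicit false

universe u

namespace Pool.Agent.Helper31.FX

/-- Some covering of `E` has no ray of bounded diameter. -/
def CoverTame {P : Type u} [PartialOrder P] (E : Set P) : Prop :=
  ∃ (X : Type u) (_ : PartialOrder X) (q : X → P), IsCover q E ∧
    ¬ HasBoundedRay (Set.univ : Set X)

/-- A poset with a new top has no more bounded rays. -/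
lemma bray_withTop {X : Type*} [PartialOrder X]
    (h : HasBoundedRay (Set.range ((↑) : X → WithTop X))) :
    HasBoundedRay (Set.univ : Set X) := by
  classical
  obtain ⟨v, hv, hvE, hvc, c, n, hp⟩ := h
  choose v' hv' using hvE
  have back : ∀ y : WithTop X, ∃ x : X, y ∈ Set.range ((↑) : X → WithTop X) → (x : WithTop X) = y := by
    intro y
    by_cases hy : y ∈ Set.range ((↑) : X → WithTop X)
    · obtain ⟨x, hx⟩ := hy
      exact ⟨x, fun _ => hx⟩
    · exact ⟨v' 0, fun h => absurd h hy⟩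
  choose b hb using back
  have hcmp : ∀ y z : WithTop X, y ∈ Set.range ((↑) : X → WithTop X) →
      z ∈ Set.range ((↑) : X → WithTop X) → (y ≤ z ∨ z ≤ y) → (b y ≤ b z ∨ b z ≤ b y) := by
    intro y z hy hz h
    rw [← hb y hy, ← hb z hz, WithTop.coe_le_coe, WithTop.coe_le_coe] at h
    exact h
  have hvr : ∀ k, v k ∈ Set.range ((↑) : X → WithTop X) := fun k => ⟨v' k, hv' k⟩
  refine ⟨fun k => b (v k), ?_, fun _ => Set.mem_univ _, fun k => hcmp _ _ (hvr k) (hvr _) (hvc k),
    b c, n, fun i => ?_⟩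
  · intro i j hij
    apply hv
    have hij' : b (v i) = b (v j) := hij
    rw [← hb (v i) (hvr i), ← hb (v j) (hvr j), hij']
  · obtain ⟨p, h0, hn, hE, hc⟩ := hp i
    refine ⟨fun j => b (p j), congrArg b h0, congrArg b hn, fun _ _ => Set.mem_univ _,
      fun j hj => ?_⟩
    exact hcmp _ _ (hE j (by omega)) (hE (j + 1) (by omega)) (hc j hj)

theorem no_labelling_cover {P X : Type*} [PartialOrder P] [PartialOrder X] (r : ℕ) (s : P)
    (E : Set P) (hE : ∀ d ∈ E, d < s) (lam : (Fin r → P) → P)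
    (h1 : ∀ δ, Rel δ δ → (∀ j, δ j ∈ insert s E) → lam δ ∈ E)
    (h2 : ∀ δ δ', Rel δ δ' → Rel δ δ → Rel δ' δ' → (∀ j, δ j ∈ insert s E) →
      (∀ j, δ' j ∈ insert s E) → lam δ ≤ lam δ' ∨ lam δ' ≤ lam δ)
    (h3 : ∀ δ, Rel δ δ → (∀ j, δ j ∈ insert s E) → ∀ M ∈ E, (∀ j, δ j ≤ M) → ¬ M ≤ lam δ)
    (q : X → P) (hq : IsCover q E) (hray : ¬ HasBoundedRay (Set.univ : Set X)) : False := by
  classical
  have htop : ∀ v ∈ insert s E, v ≤ s := by
    intro v hv
    rcases Set.mem_insert_iff.1 hv with rfl | h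
    · exact le_rfl
    · exact (hE v h).le
  obtain ⟨lamX, k1, k2⟩ := Lft.exists_lift hq r s (insert s E) (Set.mem_insert _ _) htop lam h1 h2
  let pr : WithTop X → P := fun y => WithTop.recTopCoe s q y
  have prt : pr ⊤ = s := rfl
  have prc : ∀ x : X, pr (x : WithTop X) = q x := fun _ => rfl
  have prm : ∀ y, pr y ∈ insert s E := by
    intro y
    induction y using WithTop.recTopCoe with
    | top => exact Set.mem_insert _ _
    | coe x => exact Set.mem_insert_of_mem _ (hq.mem x)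
  have prmono : ∀ y z, y ≤ z → pr y ≤ pr z := by
    intro y z h
    induction z using WithTop.recTopCoe with
    | top => exact htop _ (prm y)
    | coe z =>
      induction y using WithTop.recTopCoe with
      | top => exact absurd h (by simp)
      | coe y => exact hq.mono _ _ (WithTop.coe_le_coe.1 h)
  have prrel : ∀ δ δ' : Fin r → WithTop X, Rel δ δ' →
      Rel (fun j => pr (δ j)) (fun j => pr (δ' j)) := fun δ δ' h =>
    ⟨fun j => prmono _ _ (h.1 j), fun j k hjk => prmono _ _ (h.2 j k hjk)⟩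
  refine no_labelling_bray (P := WithTop X) r ⊤ (Set.range ((↑) : X → WithTop X)) ?_
    (fun δ => ((lamX (fun j => pr (δ j)) : X) : WithTop X)) ?_ ?_ ?_
    (fun h => hray (bray_withTop h))
  · rintro _ ⟨x, rfl⟩
    exact WithTop.coe_lt_top x
  · intro δ _ _
    exact ⟨_, rfl⟩
  · intro δ δ' h hr hr' _ _
    rw [WithTop.coe_le_coe, WithTop.coe_le_coe]
    exact k2 _ _ (prrel _ _ h) (prrel _ _ hr) (prrel _ _ hr') (fun j => prm _) (fun j => prm _)
  · rintro δ hr - _ ⟨x, rfl⟩ hle hcon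
    have hcon' : x ≤ lamX (fun j => pr (δ j)) := WithTop.coe_le_coe.1 hcon
    have h4 := k1 (fun j => pr (δ j)) (prrel _ _ hr) (fun j => prm _)
    refine h3 (fun j => pr (δ j)) (prrel _ _ hr) (fun j => prm _) (q x) (hq.mem x)
      (fun j => ?_) ?_
    · exact prmono _ _ (hle j)
    · rw [← h4]
      exact hq.mono _ _ hcon'

/-- `E` is a covering of itself. -/
theorem isCover_self {P : Type*} [PartialOrder P] (E : Set P) :
    IsCover ((↑) : {x // x ∈ E} → P) E where
  mem x := x.2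
  onto e he := ⟨⟨e, he⟩, rfl⟩
  mono _ _ h := h
  up _ e he h := ⟨⟨e, he⟩, ⟨h, rfl⟩, fun _ hy => Subtype.ext hy.2⟩
  down _ e he h := ⟨⟨e, he⟩, ⟨h, rfl⟩, fun _ hy => Subtype.ext hy.2⟩

/-- If `E` has no bounded ray then it is tame in the covering sense. -/
theorem coverTame_of_not_hasBoundedRay {P : Type u} [PartialOrder P] (E : Set P)
    (h : ¬ HasBoundedRay E) : CoverTame E := by
  refine ⟨{x // x ∈ E}, inferInstance, (↑), isCover_self E, fun hb => h ?_⟩
  obtain ⟨v, hv, -, hvc, c, n, hp⟩ := hb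
  refine ⟨fun k => (v k : P), fun i j hij => hv (Subtype.ext hij), fun k => (v k).2, hvc, c, n,
    fun i => ?_⟩
  obtain ⟨p, h0, hn, -, hc⟩ := hp i
  exact ⟨fun j => (p j : P), congrArg _ h0, congrArg _ hn, fun j _ => (p j).2, hc⟩

/-- The order dual. -/
theorem coverTame_dual {P : Type u} [PartialOrder P] (E : Set P) (h : CoverTame E) :
    CoverTame (P := Pᵒᵈ) (OrderDual.ofDual ⁻¹' E) := by
  obtain ⟨X, hX, q, hq, hr⟩ := h
  refine ⟨Xᵒᵈ, inferInstance, fun x => OrderDual.toDual (q (OrderDual.ofDual x)),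
    ⟨fun x => hq.mem _, fun e he => ?_, fun x y hxy => hq.mono _ _ hxy, fun x e he hle => ?_,
      fun x e he hle => ?_⟩, fun hb => hr ?_⟩
  · obtain ⟨x, hx⟩ := hq.onto (OrderDual.ofDual e) he
    exact ⟨OrderDual.toDual x, congrArg OrderDual.toDual hx⟩
  · obtain ⟨y, ⟨hy1, hy2⟩, huniq⟩ := hq.down (OrderDual.ofDual x) (OrderDual.ofDual e) he hle
    exact ⟨OrderDual.toDual y, ⟨hy1, congrArg OrderDual.toDual hy2⟩, fun z hz =>
      congrArg OrderDual.toDual (huniq (OrderDual.ofDual z)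
        ⟨hz.1, congrArg OrderDual.ofDual hz.2⟩)⟩
  · obtain ⟨y, ⟨hy1, hy2⟩, huniq⟩ := hq.up (OrderDual.ofDual x) (OrderDual.ofDual e) he hle
    exact ⟨OrderDual.toDual y, ⟨hy1, congrArg OrderDual.toDual hy2⟩, fun z hz =>
      congrArg OrderDual.toDual (huniq (OrderDual.ofDual z)
        ⟨hz.1, congrArg OrderDual.ofDual hz.2⟩)⟩
  · obtain ⟨v, hv, -, hvc, c, n, hp⟩ := hb
    refine ⟨fun k => OrderDual.ofDual (v k), fun i j hij => hv hij, fun _ => Set.mem_univ _,
      fun k => (hvc k).symm, OrderDual.ofDual c, n, fun i => ?_⟩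
    obtain ⟨p, h0, hn, -, hc⟩ := hp i
    exact ⟨fun j => OrderDual.ofDual (p j), congrArg _ h0, congrArg _ hn,
      fun _ _ => Set.mem_univ _, fun j hj => (hc j hj).symm⟩

end Pool.Agent.Helper31.FX
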