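import Pool.Agent.Helper80.FX2.Main
import Pool.Agent.Helper9.FX.Cover

/-! Projects FX, FX2: the fixed point theorem if some covering of `E` has no ray of bounded
diameter. -/

set_option autoImplicit false

universe u

namespace Pool.Agent.Helper9.FX

open Helper31.FX (HasBoundedRay IsCover CoverTame bray_withTop coverTame_dual)
open Helper80.FX2 (Lt LZ LZ_top le_top' no_labelling_bray)


theorem no_labelling_cover {P X : Type*} [PartialOrder P] [PartialOrder X] (r : ℕ) (s : P)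
    (E : Set P) (_ : ∀ d ∈ E, d < s) (lam : (Fin r → Lt P) → P)
    (h1 : ∀ δ, Helper31.FX.Rel δ δ → (∀ j, δ j ∈ LZ E) → lam δ ∈ E)
    (h2 : ∀ δ δ', Helper31.FX.Rel δ δ' → Helper31.FX.Rel δ δ → Helper31.FX.Rel δ' δ' → (∀ j, δ j ∈ LZ E) →
      (∀ j, δ' j ∈ LZ E) → lam δ ≤ lam δ' ∨ lam δ' ≤ lam δ)
    (h3 : ∀ δ, Helper31.FX.Rel δ δ → (∀ j, δ j ∈ LZ E) →
      ∀ x, (∀ j, x ∈ (OrderDual.ofDual (δ j) : Finset P)) → lam δ ≠ x)
    (q : X → P) (hq : IsCover q E) (hray : ¬ HasBoundedRay (Set.univ : Set X)) : False := by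
  classical
  obtain ⟨lamX, k1, k2⟩ := Helper31.FX.Lft.exists_lift hq r
    (OrderDual.toDual (∅ : Finset P) : Lt P) (LZ E) (LZ_top E) (fun v _ => le_top' v) lam h1 h2
  let q' : WithTop X → P := fun y => WithTop.recTopCoe s q y
  have qc : ∀ x : X, q' (x : WithTop X) = q x := fun _ => rfl
  let pr : Lt (WithTop X) → Lt P := fun ρ => OrderDual.toDual ((OrderDual.ofDual ρ).image q')
  have prmem : ∀ ρ (x : WithTop X), x ∈ (OrderDual.ofDual ρ : Finset (WithTop X)) →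
      q' x ∈ (OrderDual.ofDual (pr ρ) : Finset P) := fun ρ x hx => Finset.mem_image_of_mem q' hx
  have prmono : ∀ ρ ρ', ρ ≤ ρ' → pr ρ ≤ pr ρ' := by
    intro ρ ρ' h
    exact Finset.image_subset_image h
  have prZ : ∀ ρ, ρ ∈ LZ (Set.range ((↑) : X → WithTop X)) → pr ρ ∈ LZ E := by
    rintro ρ ⟨hρ1, hρ2⟩
    have hsub : ∀ y, y ∈ (OrderDual.ofDual (pr ρ) : Finset P) →
        ∃ x : X, (x : WithTop X) ∈ (OrderDual.ofDual ρ : Finset (WithTop X)) ∧ q x = y := by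
      intro y hy
      obtain ⟨z, hz, hzy⟩ := Finset.mem_image.1 hy
      obtain ⟨x, rfl⟩ := hρ1 (Finset.mem_coe.2 hz)
      exact ⟨x, hz, hzy⟩
    constructor
    · intro y hy
      obtain ⟨x, -, rfl⟩ := hsub y (Finset.mem_coe.1 hy)
      exact hq.mem x
    · intro y hy z hz _
      obtain ⟨x, hx, rfl⟩ := hsub y (Finset.mem_coe.1 hy)
      obtain ⟨w, hw, rfl⟩ := hsub z (Finset.mem_coe.1 hz)
      rcases hρ2.total (Finset.mem_coe.2 hx) (Finset.mem_coe.2 hw) with h | h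
      · exact Or.inl (hq.mono _ _ (WithTop.coe_le_coe.1 h))
      · exact Or.inr (hq.mono _ _ (WithTop.coe_le_coe.1 h))
  have prrel : ∀ δ δ' : Fin r → Lt (WithTop X), Helper31.FX.Rel δ δ' →
      Helper31.FX.Rel (fun j => pr (δ j)) (fun j => pr (δ' j)) := fun δ δ' h =>
    ⟨fun j => prmono _ _ (h.1 j), fun j k hjk => prmono _ _ (h.2 j k hjk)⟩
  refine no_labelling_bray (P := WithTop X) r ⊤ (Set.range ((↑) : X → WithTop X)) ?_
    (fun δ => ((lamX (fun j => pr (δ j)) : X) : WithTop X)) ?_ ?_ ?_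
    (fun h => hray (bray_withTop h))
  · rintro _ ⟨x, rfl⟩
    exact WithTop.coe_lt_top x
  · intro δ _ _
    exact ⟨_, rfl⟩
  · intro δ δ' h hr hr' hz hz'
    rw [WithTop.coe_le_coe, WithTop.coe_le_coe]
    exact k2 _ _ (prrel _ _ h) (prrel _ _ hr) (prrel _ _ hr') (fun j => prZ _ (hz j))
      (fun j => prZ _ (hz' j))
  · intro δ hr hz x hx hcon
    have h4 := k1 (fun j => pr (δ j)) (prrel _ _ hr) (fun j => prZ _ (hz j))
    refine h3 (fun j => pr (δ j)) (prrel _ _ hr) (fun j => prZ _ (hz j)) (q' x)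
      (fun j => prmem _ _ (hx j)) ?_
    rw [← h4, ← hcon]
    exact (qc _).symm

/-- `E` has a covering without ray of bounded diameter, or `E` contains no chain of three
elements. -/
def Tame {P : Type u} [PartialOrder P] (E : Set P) : Prop :=
  CoverTame E ∨ (∀ a ∈ E, ∀ b ∈ E, ∀ c ∈ E, a < b → ¬ b < c)

/-- **Main theorem.** -/
theorem main_tame (P : Type u) [PartialOrder P]
    (hfin : ∃ n : ℕ, ∀ c : Finset P, IsChain (· ≤ ·) (c : Set P) → c.card ≤ n) (s : P)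
    (hi : ∀ x : P, (∃ z : P, IsLUB ({s, x} : Set P) z) ∨ (∃ z : P, IsGLB ({s, x} : Set P) z))
    (E : Set P) (hE : ∀ d ∈ E, d < s)
    (hgr : ∀ m : P, m < s → ∃ e, IsGreatest {d | d ∈ E ∧ d ≤ m} e)
    (hj : ∀ x y m e : P, x < y → (¬ ∃ z : P, IsGLB ({s, x} : Set P) z) →
      IsGLB ({s, y} : Set P) m → m < s → IsGreatest {d | d ∈ E ∧ d ≤ m} e →
      ∃ z : P, IsLUB ({e, x} : Set P) z)
    (ht : Tame E)
    (f : P → P) (hf : Monotone f) : ∃ x : P, f x = x := by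
  rcases ht with ⟨X, hX, q, hq, hr⟩ | h
  · by_contra hno
    obtain ⟨r, lam, h1, h2, h3⟩ :=
      Helper80.FX2.exists_label P hfin s hi E hE hgr hj f hf hno
    exact no_labelling_cover r s E hE lam h1 h2 h3 q hq hr
  · exact Helper80.FX2.main_tame2 P hfin s hi E hE hgr hj (Or.inr h) f hf

theorem tame_dual {P : Type u} [PartialOrder P] (E : Set P) (h : Tame E) :
    Tame (P := Pᵒᵈ) (OrderDual.ofDual ⁻¹' E) := by
  rcases h with h | h
  · exact Or.inl (coverTame_dual E h)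
  · refine Or.inr ?_
    intro a ha b hb c hc hab hbc
    exact h c hc b hb a ha hbc hab

/-- The order dual of `main_tame`. -/
theorem main_tame_dual (P : Type u) [PartialOrder P]
    (hfin : ∃ n : ℕ, ∀ c : Finset P, IsChain (· ≤ ·) (c : Set P) → c.card ≤ n) (s : P)
    (hi : ∀ x : P, (∃ z : P, IsLUB ({s, x} : Set P) z) ∨ (∃ z : P, IsGLB ({s, x} : Set P) z))
    (E : Set P) (hE : ∀ d ∈ E, s < d)
    (hgr : ∀ m : P, s < m → ∃ e, IsLeast {d | d ∈ E ∧ m ≤ d} e)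
    (hj : ∀ x y m e : P, y < x → (¬ ∃ z : P, IsLUB ({s, x} : Set P) z) →
      IsLUB ({s, y} : Set P) m → s < m → IsLeast {d | d ∈ E ∧ m ≤ d} e →
      ∃ z : P, IsGLB ({e, x} : Set P) z)
    (ht : Tame E)
    (f : P → P) (hf : Monotone f) : ∃ x : P, f x = x := by
  obtain ⟨n, hn⟩ := hfin
  have key := main_tame Pᵒᵈ ⟨n, fun c hc => hn c (by
    intro a ha b hb hab
    exact (hc ha hb hab).symm)⟩ (OrderDual.toDual s)
    (fun x => (hi (OrderDual.ofDual x)).symm) (OrderDual.ofDual ⁻¹' E)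
    (fun d hd => hE _ hd) (fun m hm => hgr (OrderDual.ofDual m) hm)
    (fun x y m e h1 h2 h3 h4 h5 =>
      hj (OrderDual.ofDual x) (OrderDual.ofDual y) (OrderDual.ofDual m) (OrderDual.ofDual e)
        h1 h2 h3 h4 h5) (tame_dual E ht)
    (fun x => OrderDual.toDual (f (OrderDual.ofDual x))) (fun a b hab => hf hab)
  exact key

end Pool.Agent.Helper9.FX
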