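import Mathlib

/-!
MP_3976d4_co, project FX: a locally finite graph with exactly one vertex of odd degree has an
infinite trail, and an infinite walk through finite sets gives an infinite path through points.
-/

set_option autoImplicit false

namespace Pool.Agent.Helper9.FX

section Trail

variable {V : Type*} [DecidableEq V]

/-- the number of used edges at a vertex -/
def usedDeg (N : V → Finset V) (U : Finset (Sym2 V)) (v : V) : ℕ :=
  ((N v).filter (fun b => s(v, b) ∈ U)).card

/-- the state of a trail: current vertex and used edges -/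
def Inv (N : V → Finset V) (o : V) (p : V × Finset (Sym2 V)) : Prop :=
  ∀ v, (Odd (usedDeg N p.2 v) ↔ ¬ (v = o ↔ v = p.1))

lemma inv_start (N : V → Finset V) (o : V) : Inv N o (o, ∅) := by
  intro v
  simp [usedDeg]

lemma usedDeg_insert_other (N : V → Finset V) (U : Finset (Sym2 V)) {c b v : V} (hc : v ≠ c)
    (hb : v ≠ b) : usedDeg N (insert s(c, b) U) v = usedDeg N U v := by
  unfold usedDeg
  congr 1
  apply Finset.filter_congr
  intro x _
  rw [Finset.mem_insert]
  constructor
  · rintro (h | h)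
    · rw [Sym2.eq_iff] at h
      rcases h with ⟨h, -⟩ | ⟨h, -⟩
      · exact absurd h hc
      · exact absurd h hb
    · exact h
  · exact Or.inr

lemma usedDeg_insert_left (N : V → Finset V) (U : Finset (Sym2 V)) {c b : V} (hb : b ∈ N c)
    (hne : c ≠ b) (hU : s(c, b) ∉ U) :
    usedDeg N (insert s(c, b) U) c = usedDeg N U c + 1 := by
  unfold usedDeg
  have : (N c).filter (fun x => s(c, x) ∈ insert s(c, b) U) =
      insert b ((N c).filter (fun x => s(c, x) ∈ U)) := by
    ext x
    simp only [Finset.mem_filter, Finset.mem_insert]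
    constructor
    · rintro ⟨h1, h2 | h2⟩
      · rw [Sym2.eq_iff] at h2
        rcases h2 with ⟨-, h2⟩ | ⟨h2, -⟩
        · exact Or.inl h2
        · exact absurd h2 hne
      · exact Or.inr ⟨h1, h2⟩
    · rintro (h | ⟨h1, h2⟩)
      · exact ⟨h ▸ hb, Or.inl (by rw [h])⟩
      · exact ⟨h1, Or.inr h2⟩
  rw [this, Finset.card_insert_of_notMem]
  intro h
  rw [Finset.mem_filter] at h
  exact hU h.2

lemma exists_step {N : V → Finset V} {o : V} (sym : ∀ a b, b ∈ N a ↔ a ∈ N b)
    (irr : ∀ a, a ∉ N a) (hodd : Odd (N o).card) (heven : ∀ a, a ≠ o → Even (N a).card)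
    (p : V × Finset (Sym2 V)) (hp : Inv N o p) :
    ∃ b, b ∈ N p.1 ∧ s(p.1, b) ∉ p.2 ∧ Inv N o (b, insert s(p.1, b) p.2) := by
  have h1 : ∃ b ∈ N p.1, s(p.1, b) ∉ p.2 := by
    by_contra hcon
    push Not at hcon
    have h2 : usedDeg N p.2 p.1 = (N p.1).card := by
      unfold usedDeg
      rw [Finset.filter_true_of_mem hcon]
    have h3 := hp p.1
    rw [h2] at h3
    by_cases h4 : p.1 = o
    · rw [h4] at h3
      have := h3.1 hodd
      exact this ⟨fun _ => rfl, fun _ => rfl⟩
    · have h5 := heven _ h4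
      rw [← Nat.not_odd_iff_even] at h5
      exact h5 (h3.2 (fun h => h4 (h.2 rfl)))
  obtain ⟨b, hb, hbU⟩ := h1
  have hne : p.1 ≠ b := fun h => irr _ (h ▸ hb)
  refine ⟨b, hb, hbU, fun v => ?_⟩
  show Odd (usedDeg N (insert s(p.1, b) p.2) v) ↔ ¬ (v = o ↔ v = b)
  have hv := hp v
  by_cases hv1 : v = p.1
  · subst hv1
    rw [usedDeg_insert_left N p.2 hb hne hbU, Nat.odd_add_one, hv]
    constructor
    · intro h h'
      apply h
      intro h''
      exact hne (h'.1 (h''.2 rfl))
    · intro h h'
      apply h'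
      constructor
      · intro _; rfl
      · intro _
        by_contra h3
        exact h ⟨fun h4 => absurd h4 h3, fun h4 => absurd h4 hne⟩
  · by_cases hv2 : v = b
    · subst hv2
      have h3 : usedDeg N (insert s(p.1, v) p.2) v = usedDeg N p.2 v + 1 := by
        rw [Sym2.eq_swap]
        exact usedDeg_insert_left N p.2 ((sym _ _).1 hb) (Ne.symm hne) (by rwa [Sym2.eq_swap])
      rw [h3, Nat.odd_add_one, hv]
      constructor
      · intro h h'
        apply h
        intro h''
        exact hv1 (h''.1 (h'.2 rfl))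
      · intro h h'
        apply h'
        constructor
        · intro h4
          exact absurd ⟨fun _ => rfl, fun _ => h4⟩ h
        · intro h4
          exact absurd h4 hv1
    · rw [usedDeg_insert_other N p.2 hv1 hv2, hv]
      constructor
      · intro h h'
        apply h
        exact ⟨fun h4 => absurd (h'.1 h4) hv2, fun h4 => absurd h4 hv1⟩
      · intro h h'
        apply h
        exact ⟨fun h4 => absurd (h'.1 h4) hv1, fun h4 => absurd h4 hv2⟩

/-- **Infinite trail.** In a locally finite graph in which exactly one vertex has odd degree there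
is an infinite walk, starting at this vertex, which visits every vertex finitely often. -/
theorem trail {V : Type*} (N : V → Finset V) (sym : ∀ a b, b ∈ N a ↔ a ∈ N b)
    (irr : ∀ a, a ∉ N a) (o : V) (hodd : Odd (N o).card)
    (heven : ∀ a, a ≠ o → Even (N a).card) :
    ∃ m : ℕ → V, m 0 = o ∧ (∀ i, m (i + 1) ∈ N (m i)) ∧ ∀ a, {i | m i = a}.Finite := by
  classical
  have hst := fun p : {p : V × Finset (Sym2 V) // Inv N o p} =>
    exists_step sym irr hodd heven p.1 p.2
  choose nx h1 h2 h3 using hst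
  let nxt : {p : V × Finset (Sym2 V) // Inv N o p} → {p : V × Finset (Sym2 V) // Inv N o p} :=
    fun p => ⟨(nx p, insert s(p.1.1, nx p) p.1.2), h3 p⟩
  let st : ℕ → {p : V × Finset (Sym2 V) // Inv N o p} :=
    fun n => Nat.rec ⟨(o, ∅), inv_start N o⟩ (fun _ p => nxt p) n
  have hst : ∀ n, st (n + 1) = nxt (st n) := fun _ => rfl
  let m : ℕ → V := fun n => (st n).1.1
  have hm1 : ∀ n, m (n + 1) = nx (st n) := fun _ => rfl
  have hU : ∀ n, (st (n + 1)).1.2 = insert s(m n, m (n + 1)) (st n).1.2 := fun _ => rfl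
  have hmono : ∀ n k, (st n).1.2 ⊆ (st (n + k)).1.2 := by
    intro n k
    induction k with
    | zero => exact subset_rfl
    | succ k ih =>
      refine ih.trans ?_
      rw [← Nat.add_assoc, hU]
      exact Finset.subset_insert _ _
  have hnot : ∀ n, s(m n, m (n + 1)) ∉ (st n).1.2 := fun n => h2 (st n)
  have hinj : ∀ i j, i < j → s(m i, m (i + 1)) ≠ s(m j, m (j + 1)) := by
    intro i j hij heq
    obtain ⟨k, rfl⟩ := Nat.exists_eq_add_of_lt hij
    apply hnot (i + k + 1)
    rw [← heq]
    have : (st (i + 1)).1.2 ⊆ (st (i + k + 1)).1.2 := by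
      have := hmono (i + 1) k
      rwa [show i + 1 + k = i + k + 1 by omega] at this
    apply this
    rw [hU]
    exact Finset.mem_insert_self _ _
  refine ⟨m, rfl, fun i => h1 (st i), fun a => ?_⟩
  have hfin : (((N a).image (fun b => s(a, b)) : Finset (Sym2 V)) : Set (Sym2 V)).Finite :=
    Finset.finite_toSet _
  refine Set.Finite.of_finite_image (hfin.subset ?_)
    (f := fun i => s(m i, m (i + 1))) ?_
  · rintro _ ⟨i, hi, rfl⟩
    have hi' : m i = a := hi
    simp only [Finset.coe_image, Set.mem_image, Finset.mem_coe]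
    refine ⟨m (i + 1), ?_, ?_⟩
    · rw [← hi']
      exact h1 (st i)
    · rw [hi']
  · intro i _ j _ hij
    rcases lt_trichotomy i j with h | h | h
    · exact absurd hij (hinj i j h)
    · exact h
    · exact absurd hij.symm (hinj j i h)

end Trail

section Ray

/-- **From a walk of finite sets to a path of points.** -/
theorem ray {D : Type*} (m : ℕ → Finset D)
    (hstep : ∀ i, m i ⊆ m (i + 1) ∨ m (i + 1) ⊆ m i) (hfin : ∀ F, {i | m i = F}.Finite) :
    ∃ v : ℕ → D, Function.Injective v ∧ ∀ k, ∃ i, v k ∈ m i ∧ v (k + 1) ∈ m i := by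
  classical
  -- only finitely many members lie in a given finite set
  have hfin' : ∀ F : Finset D, {i | m i ⊆ F}.Finite := by
    intro F
    have : {i | m i ⊆ F} ⊆ ⋃ G ∈ F.powerset, {i | m i = G} := by
      intro i hi
      simp only [Set.mem_iUnion, Finset.mem_powerset]
      exact ⟨m i, hi, rfl⟩
    refine Set.Finite.subset ?_ this
    exact Set.Finite.biUnion (Finset.finite_toSet _) (fun G _ => hfin G)
  -- states
  let Good : Finset D × D × ℕ → Prop := fun p =>
    p.2.1 ∉ p.1 ∧ p.2.1 ∈ m p.2.2 ∧ ∀ j, p.2.2 ≤ j → ¬ m j ⊆ p.1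
  have hnext : ∀ p, Good p → ∃ q : D × ℕ, Good (insert p.2.1 p.1, q) ∧
      ∃ i, p.2.1 ∈ m i ∧ q.1 ∈ m i := by
    rintro ⟨F, v, i⟩ ⟨h1, h2, h3⟩
    simp only at h1 h2 h3
    by_cases hA : ∃ j, i ≤ j ∧ m j ⊆ insert v F
    · -- the last member contained in `insert v F`
      have hfA : {j | m j ⊆ insert v F}.Finite := hfin' _
      obtain ⟨j, hj1, hj2, hj3⟩ : ∃ j, i ≤ j ∧ m j ⊆ insert v F ∧
          ∀ j', j < j' → ¬ m j' ⊆ insert v F := by
        obtain ⟨j0, hj0, hj0'⟩ := hA
        let A : Finset ℕ := hfA.toFinset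
        have hmem : j0 ∈ A := by simpa [A] using hj0'
        refine ⟨A.max' ⟨j0, hmem⟩, hj0.trans (Finset.le_max' _ _ hmem), ?_, ?_⟩
        · have := Finset.max'_mem A ⟨j0, hmem⟩
          simpa [A] using this
        · intro j' hj' hc
          have : j' ∈ A := by simpa [A] using hc
          exact absurd (Finset.le_max' A j' this) (not_le.mpr hj')
      have hv : v ∈ m j := by
        by_contra hv
        apply h3 j hj1
        intro x hx
        rcases Finset.mem_insert.1 (hj2 hx) with h | h
        · exact absurd (h ▸ hx) hv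
        · exact h
      obtain ⟨u, hu1, hu2⟩ := Finset.not_subset.1 (hj3 (j + 1) (Nat.lt_succ_self j))
      have hsub : m j ⊆ m (j + 1) := by
        rcases hstep j with h | h
        · exact h
        · exact absurd (hj2 (h hu1)) hu2
      refine ⟨(u, j + 1), ⟨hu2, hu1, fun j' hj' => hj3 j' (by
        have : j + 1 ≤ j' := hj'
        omega)⟩, j + 1, hsub hv, hu1⟩
    · push Not at hA
      obtain ⟨u, hu1, hu2⟩ := Finset.not_subset.1 (hA i le_rfl)
      exact ⟨(u, i), ⟨hu2, hu1, fun j' hj' => hA j' hj'⟩, i, h2, hu1⟩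
  have hstart : ∃ p, Good p := by
    obtain ⟨b, hb⟩ := (hfin' ∅).bddAbove
    have hb' : ∀ j, b + 1 ≤ j → ¬ m j ⊆ ∅ := by
      intro j hj hc
      have : j ≤ b := hb hc
      omega
    obtain ⟨v0, hv0, -⟩ := Finset.not_subset.1 (hb' (b + 1) le_rfl)
    exact ⟨(∅, v0, b + 1), Finset.notMem_empty _, hv0, hb'⟩
  obtain ⟨p0, hp0⟩ := hstart
  choose nx hnx1 hnx2 using (fun p : {p // Good p} => hnext p.1 p.2)
  let st : ℕ → {p // Good p} := fun n => Nat.rec ⟨p0, hp0⟩
    (fun _ p => ⟨(insert p.1.2.1 p.1.1, nx p), hnx1 p⟩) n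
  let v : ℕ → D := fun n => (st n).1.2.1
  have hF : ∀ n, (st (n + 1)).1.1 = insert (v n) (st n).1.1 := fun _ => rfl
  have hmono : ∀ n k, v n ∈ (st (n + k + 1)).1.1 := by
    intro n k
    induction k with
    | zero =>
      show v n ∈ insert (v n) (st n).1.1
      exact Finset.mem_insert_self _ _
    | succ k ih =>
      show v n ∈ insert (v (n + k + 1)) (st (n + k + 1)).1.1
      exact Finset.mem_insert_of_mem ih
  refine ⟨v, ?_, fun k => hnx2 (st k)⟩
  have hne' : ∀ i j, i < j → v i ≠ v j := by
    intro i j hij heq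
    obtain ⟨k, rfl⟩ := Nat.exists_eq_add_of_lt hij
    have h1 := hmono i k
    rw [heq] at h1
    exact (st (i + k + 1)).2.1 h1
  intro i j hij
  rcases lt_trichotomy i j with h | h | h
  · exact absurd hij (hne' i j h)
  · exact h
  · exact absurd hij.symm (hne' j i h)

end Ray

end Pool.Agent.Helper9.FX
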