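import Pool.Agent.Helper31.FX.Ray

/-! Project FX: the combinatorial fixed point lemma for sets without a bounded ray. -/

set_option autoImplicit false
set_option linter.unusedSectionVars false

namespace Pool.Agent.Helper31.FX.Pth


/-- `y` can be reached from `d` in `n` steps of the comparability graph of `E`. -/
def Reach {P : Type*} [PartialOrder P] (E : Set P) (n : ℕ) (d y : P) : Prop :=
  ∃ p : ℕ → P, p 0 = d ∧ p n = y ∧ (∀ i, i ≤ n → p i ∈ E) ∧
    ∀ i, i < n → p i ≤ p (i + 1) ∨ p (i + 1) ≤ p i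

/-- The shift of a tuple. -/
def shf {P : Type*} {r : ℕ} (s : P) (δ : Fin r → P) (i : ℕ) : Fin r → P :=
  fun j => if h : (j : ℕ) + i < r then δ ⟨j + i, h⟩ else s

section

variable {P : Type*} [PartialOrder P] {r : ℕ} {s : P} {E : Set P}

lemma shf_zero (δ : Fin r → P) : shf s δ 0 = δ := by
  funext j
  simp [shf]

lemma shf_top (δ : Fin r → P) : shf s δ r = fun _ => s := by
  funext j
  simp [shf]

lemma shf_mem {δ : Fin r → P} (hδ : ∀ j, δ j ∈ insert s E) (i : ℕ) (j : Fin r) :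
    shf s δ i j ∈ insert s E := by
  unfold shf
  split_ifs with h
  · exact hδ _
  · exact Set.mem_insert _ _

lemma le_s (hE : ∀ d ∈ E, d < s) {x : P} (hx : x ∈ insert s E) : x ≤ s := by
  rcases Set.mem_insert_iff.1 hx with rfl | h
  · exact le_rfl
  · exact (hE x h).le

lemma rel_le {δ : Fin r → P} (hr : Rel δ δ) {j k : Fin r} (h : j ≤ k) : δ j ≤ δ k := by
  rcases h.eq_or_lt with rfl | h
  · exact le_rfl
  · exact hr.2 j k h

lemma shf_le (hE : ∀ d ∈ E, d < s) {δ : Fin r → P} (hr : Rel δ δ)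
    (hδ : ∀ j, δ j ∈ insert s E) {i i' : ℕ} {j j' : Fin r} (h : (j : ℕ) + i ≤ j' + i') :
    shf s δ i j ≤ shf s δ i' j' := by
  unfold shf
  split_ifs with h1 h2 h2
  · exact rel_le hr h
  · exact le_s hE (hδ _)
  · omega
  · exact le_rfl

lemma shf_rel (hE : ∀ d ∈ E, d < s) {δ : Fin r → P} (hr : Rel δ δ)
    (hδ : ∀ j, δ j ∈ insert s E) (i : ℕ) :
    Rel (shf s δ i) (shf s δ i) ∧ Rel (shf s δ i) (shf s δ (i + 1)) := by
  refine ⟨⟨fun j => le_rfl, fun j k hjk => ?_⟩, fun j => ?_, fun j k hjk => ?_⟩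
  · exact shf_le hE hr hδ (by have : (j : ℕ) < k := hjk; omega)
  · exact shf_le hE hr hδ (by omega)
  · exact shf_le hE hr hδ (by have : (j : ℕ) < k := hjk; omega)

lemma Reach.start {n : ℕ} {d y : P} (h : Reach E n d y) : d ∈ E := by
  obtain ⟨p, rfl, -, h, -⟩ := h
  exact h 0 (Nat.zero_le n)

lemma Reach.fin {n : ℕ} {d y : P} (h : Reach E n d y) : y ∈ E := by
  obtain ⟨p, -, rfl, h, -⟩ := h
  exact h n le_rfl

/-- every label can be reached from the label of `s` in `r` steps -/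
lemma label_reach (hE : ∀ d ∈ E, d < s) (lam : (Fin r → P) → P)
    (h1 : ∀ δ, Rel δ δ → (∀ j, δ j ∈ insert s E) → lam δ ∈ E)
    (h2 : ∀ δ δ', Rel δ δ' → Rel δ δ → Rel δ' δ' → (∀ j, δ j ∈ insert s E) →
      (∀ j, δ' j ∈ insert s E) → lam δ ≤ lam δ' ∨ lam δ' ≤ lam δ)
    (δ : Fin r → P) (hr : Rel δ δ) (hδ : ∀ j, δ j ∈ insert s E) :
    Reach E r (lam (fun _ => s)) (lam δ) := by
  refine ⟨fun i => lam (shf s δ (r - i)), ?_, ?_, fun i _ => ?_, fun i hi => ?_⟩
  · show lam (shf s δ (r - 0)) = _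
    rw [Nat.sub_zero, shf_top]
  · show lam (shf s δ (r - r)) = _
    rw [Nat.sub_self, shf_zero]
  · exact h1 _ (shf_rel hE hr hδ _).1 (shf_mem hδ _)
  · show lam (shf s δ (r - i)) ≤ lam (shf s δ (r - (i + 1))) ∨
      lam (shf s δ (r - (i + 1))) ≤ lam (shf s δ (r - i))
    have e : r - i = r - (i + 1) + 1 := by omega
    rw [e]
    exact (h2 _ _ (shf_rel hE hr hδ _).2 (shf_rel hE hr hδ _).1 (shf_rel hE hr hδ _).1
      (shf_mem hδ _) (shf_mem hδ _)).symm

end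

/-- **No labelling** if every infinite path in the comparability graph of `E` is unbounded. -/
theorem no_labelling_path {P : Type*} [PartialOrder P] (r : ℕ) (s : P) (E : Set P)
    (hE : ∀ d ∈ E, d < s) (lam : (Fin r → P) → P)
    (h1 : ∀ δ, Rel δ δ → (∀ j, δ j ∈ insert s E) → lam δ ∈ E)
    (h2 : ∀ δ δ', Rel δ δ' → Rel δ δ → Rel δ' δ' → (∀ j, δ j ∈ insert s E) →
      (∀ j, δ' j ∈ insert s E) → lam δ ≤ lam δ' ∨ lam δ' ≤ lam δ)
    (h3 : ∀ δ, Rel δ δ → (∀ j, δ j ∈ insert s E) → ∀ M ∈ E, (∀ j, δ j ≤ M) → ¬ M ≤ lam δ)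
    (hray : ¬ ∃ (v : ℕ → P) (d : P) (n : ℕ), Function.Injective v ∧ (∀ k, v k ∈ E) ∧
      (∀ k, v k ≤ v (k + 1) ∨ v (k + 1) ≤ v k) ∧ ∀ k, ∃ p : ℕ → P, p 0 = d ∧ p n = v k ∧
        (∀ i, i ≤ n → p i ∈ E) ∧ ∀ i, i < n → p i ≤ p (i + 1) ∨ p (i + 1) ≤ p i) : False := by
  set d0 := lam (fun _ => s) with hd0
  let E' : Set P := {x | Reach E r d0 x}
  have hsub : ∀ x ∈ E', x ∈ E := fun x hx => Reach.fin hx
  have hins : ∀ x ∈ insert s E', x ∈ insert s E := by
    intro x hx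
    rcases Set.mem_insert_iff.1 hx with rfl | h
    · exact Set.mem_insert _ _
    · exact Set.mem_insert_of_mem _ (hsub x h)
  refine no_labelling_ray r s E' (fun d hd => hE d (hsub d hd)) lam
    (fun δ hr hδ => label_reach hE lam h1 h2 δ hr (fun j => hins _ (hδ j)))
    (fun δ δ' h hr hr' hδ hδ' => h2 δ δ' h hr hr' (fun j => hins _ (hδ j))
      (fun j => hins _ (hδ' j)))
    (fun δ hr hδ M hM hle => h3 δ hr (fun j => hins _ (hδ j)) M (hsub M hM) hle) ?_
  rintro ⟨v, hv1, hv2, hv3⟩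
  exact hray ⟨v, d0, r, hv1, fun k => hsub _ (hv2 k), hv3, fun k => hv2 k⟩

/-- A set in which every element is comparable with only finitely many elements has no bounded
ray. -/
theorem locally_finite_no_ray {P : Type*} [PartialOrder P] (E : Set P)
    (hfin : ∀ d ∈ E, {e | e ∈ E ∧ (e ≤ d ∨ d ≤ e)}.Finite) :
    ¬ ∃ (v : ℕ → P) (d : P) (n : ℕ), Function.Injective v ∧ (∀ k, v k ∈ E) ∧
      (∀ k, v k ≤ v (k + 1) ∨ v (k + 1) ≤ v k) ∧ ∀ k, ∃ p : ℕ → P, p 0 = d ∧ p n = v k ∧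
        (∀ i, i ≤ n → p i ∈ E) ∧ ∀ i, i < n → p i ≤ p (i + 1) ∨ p (i + 1) ≤ p i := by
  rintro ⟨v, d, n, hv1, -, -, hv4⟩
  have hball : ∀ n : ℕ, {y | Reach E n d y}.Finite := by
    intro n
    induction n with
    | zero =>
      refine (Set.finite_singleton d).subset ?_
      rintro y ⟨p, h1, h2, -⟩
      rw [Set.mem_singleton_iff, ← h1, ← h2]
    | succ n ih =>
      have : {y | Reach E (n + 1) d y} ⊆
          ⋃ x ∈ {y | Reach E n d y}, {e | e ∈ E ∧ (e ≤ x ∨ x ≤ e)} := by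
        rintro y ⟨p, h1, h2, h3, h4⟩
        simp only [Set.mem_iUnion]
        refine ⟨p n, ⟨p, h1, rfl, fun i hi => h3 i (by omega), fun i hi => h4 i (by omega)⟩,
          ?_, ?_⟩
        · rw [← h2]
          exact h3 _ le_rfl
        · rw [← h2]
          exact (h4 n (Nat.lt_succ_self n)).symm
      refine Set.Finite.subset (Set.Finite.biUnion ih (fun x hx => hfin x ?_)) this
      exact Reach.fin hx
  have hinf : (Set.range v).Infinite := Set.infinite_range_of_injective hv1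
  apply hinf
  refine (hball n).subset ?_
  rintro _ ⟨k, rfl⟩
  exact hv4 k

end Pool.Agent.Helper31.FX.Pth
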